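import Pool.Agent.H77.PM.Targets

/-!
# MP_5607ba_lc: hereditary classes of Polish metric structures. Row SIG.
-/

set_option autoImplicit false

open Set Filter Topology

namespace Pool.Agent.H68.PM

open Pool.Agent.H77.PM

section

variable {ι : Type} {ar : ι → ℕ} {Z : Type}

private theorem cyl_anti [TopologicalSpace Z] {F F' : Finset ℕ} (h : F ⊆ F')
    (A : Set (Code ι ar Z)) {x : Code ι ar Z} (hx : x ∈ cyl F' A) : x ∈ cyl F A := by
  intro I U hU hxU hdep
  exact hx I U hU hxU fun y z h1 h2 => hdep y z (fun i hi j hj => h1 i (h hi) j (h hj))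
    fun i hi a ha => h2 i hi a fun j => h (ha j)

/-- agreement of the decoded lists -/
private theorem dec1 {x y : ListStructure (ℝ × (ι → Z))} {j : ℕ}
    (h : ∀ l : List ℕ, (∀ i ∈ l, i ∈ insert 0 (Finset.range j)) → x l = y l) {i k : ℕ}
    (hi : i < j) (hk : k < j) :
    (decL (ar := ar) x).1 i k = (decL (ar := ar) y).1 i k := by
  show (x [i, k]).1 = (y [i, k]).1
  rw [h]
  intro t ht
  simp only [List.mem_cons, List.not_mem_nil, or_false] at ht
  rcases ht with rfl | rfl
  · exact Finset.mem_insert_of_mem (Finset.mem_range.2 hi)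
  · exact Finset.mem_insert_of_mem (Finset.mem_range.2 hk)

private theorem dec2 {x y : ListStructure (ℝ × (ι → Z))} {j : ℕ}
    (h : ∀ l : List ℕ, (∀ i ∈ l, i ∈ insert 0 (Finset.range j)) → x l = y l) (i : ι)
    (a : Fin (ar i) → ℕ) (ha : ∀ t, a t < j) :
    (decL (ar := ar) x).2 i a = (decL (ar := ar) y).2 i a := by
  show (if ar i = 0 then (x [0]).2 i else (x (List.ofFn a)).2 i) =
    (if ar i = 0 then (y [0]).2 i else (y (List.ofFn a)).2 i)
  have h1 : x [0] = y [0] := by
    apply h
    intro t ht
    simp only [List.mem_cons, List.not_mem_nil, or_false] at ht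
    rw [ht]
    exact Finset.mem_insert_self _ _
  have h2 : x (List.ofFn a) = y (List.ofFn a) := by
    apply h
    intro t ht
    rw [List.mem_ofFn] at ht
    obtain ⟨s, rfl⟩ := ht
    exact Finset.mem_insert_of_mem (Finset.mem_range.2 (ha s))
  rw [h1, h2]

private theorem til2 (c : ι → Z) {x y : ListStructure (ℝ × (ι → Z))} {j : ℕ}
    (h : ∀ l : List ℕ, (∀ i ∈ l, i ∈ insert 0 (Finset.range j)) → x l = y l) (l : List ℕ)
    (hl : ∀ i ∈ l, i < j) :
    tilL (ar := ar) c (decL x) l = tilL (ar := ar) c (decL y) l := by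
  cases l with
  | nil => rfl
  | cons a t =>
    have ha : a < j := hl a List.mem_cons_self
    have ht : t.headD a < j := by
      cases t with
      | nil => exact ha
      | cons b t' => exact hl b (List.mem_cons_of_mem _ List.mem_cons_self)
    unfold tilL
    refine Prod.ext (dec1 (ar := ar) h ha ht) ?_
    funext i
    refine dec2 h i _ fun s => ?_
    rw [List.getD_eq_getElem?_getD]
    rcases lt_or_ge (s : ℕ) (a :: t).length with hs | hs
    · rw [List.getElem?_eq_getElem hs, Option.getD_some]
      exact hl _ (List.getElem_mem hs)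
    · rw [List.getElem?_eq_none hs, Option.getD_none]
      exact ha

/-- the conditions at the level `j` -/
private def Cd [TopologicalSpace Z] (c : ι → Z) (C : Set (Code ι ar Z)) (N j : ℕ) :
    Set (ListStructure (ℝ × (ι → Z))) :=
  {y | (∀ l : List ℕ, (∀ i ∈ l, i < j) → y l = tilL (ar := ar) c (decL y) l) ∧
    ((∀ i < j, (decL (ar := ar) y).1 i i = 0) ∧
      (∀ i < j, ∀ k < j, (decL (ar := ar) y).1 i k = 0 → i = k) ∧
      (∀ i < j, ∀ k < j, (decL (ar := ar) y).1 i k = (decL (ar := ar) y).1 k i) ∧
      ∀ i < j, ∀ k < j, ∀ t < j, (decL (ar := ar) y).1 i t ≤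
        (decL (ar := ar) y).1 i k + (decL (ar := ar) y).1 k t) ∧
    (∀ s : Fin (N + 1) → ℕ × ℕ, (∀ a, (s a).1 < j ∧ (s a).2 < j) → ∃ a b, a ≠ b ∧
      (decL (ar := ar) y).1 (s a).1 (s a).2 = (decL (ar := ar) y).1 (s b).1 (s b).2) ∧
    decL (ar := ar) y ∈ cyl (Finset.range j) C}

private theorem Cd_imp [TopologicalSpace Z] (hCYL : T_CYL) (c : ι → Z) (C : Set (Code ι ar Z))
    (N j : ℕ) {x y : ListStructure (ℝ × (ι → Z))}
    (h : ∀ l : List ℕ, (∀ i ∈ l, i ∈ insert 0 (Finset.range j)) → x l = y l)
    (hx : x ∈ Cd c C N j) : y ∈ Cd c C N j := by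
  obtain ⟨h1, ⟨h2, h3, h4, h5⟩, h6, h7⟩ := hx
  have hd : ∀ {i k : ℕ}, i < j → k < j →
      (decL (ar := ar) x).1 i k = (decL (ar := ar) y).1 i k := fun hi hk => dec1 h hi hk
  refine ⟨fun l hl => ?_, ⟨fun i hi => ?_, fun i hi k hk => ?_, fun i hi k hk => ?_,
    fun i hi k hk t ht => ?_⟩, fun s hs => ?_, ?_⟩
  · rw [← til2 c h l hl, ← h1 l hl, h]
    intro i hi
    exact Finset.mem_insert_of_mem (Finset.mem_range.2 (hl i hi))
  · rw [← hd hi hi]
    exact h2 i hi
  · rw [← hd hi hk]
    exact h3 i hi k hk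
  · rw [← hd hi hk, ← hd hk hi]
    exact h4 i hi k hk
  · rw [← hd hi hk, ← hd hk ht, ← hd hi ht]
    exact h5 i hi k hk t ht
  · obtain ⟨a, b, hab, h8⟩ := h6 s hs
    refine ⟨a, b, hab, ?_⟩
    rw [← hd (hs a).1 (hs a).2, ← hd (hs b).1 (hs b).2]
    exact h8
  · refine ((hCYL ι ar Z C).2.1 (Finset.range j) _ _ (fun i hi k hk => ?_)
      fun i a ha => ?_).1 h7
    · exact hd (Finset.mem_range.1 hi) (Finset.mem_range.1 hk)
    · exact dec2 h i a fun t => Finset.mem_range.1 (ha t)

end

theorem pf_SIG (hTLL : T_TLL) (hCYL : T_CYL) (hMET : T_MET) : T_SIG := by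
  intro ι _ ar Z _ _ _ _ c C hC
  obtain ⟨hdt, -, hmt, hmd⟩ := hTLL ι ar Z c
  refine ⟨fun m j => Cd c (C m.unpair.1) m.unpair.2 j, fun m j => ⟨?_, ?_⟩, fun y => ?_⟩
  · -- measurability
    have hdm : ∀ i k, Measurable fun y : ListStructure (ℝ × (ι → Z)) =>
        (decL (ar := ar) y).1 i k := fun i k =>
      (measurable_pi_apply k).comp ((measurable_pi_apply i).comp (measurable_fst.comp hmd))
    have e1 : MeasurableSet {y : ListStructure (ℝ × (ι → Z)) | ∀ l : List ℕ, (∀ i ∈ l, i < j) →
        y l = tilL (ar := ar) c (decL y) l} := by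
      rw [ofPred_forall]
      refine MeasurableSet.iInter fun l => ?_
      rw [ofPred_forall]
      refine MeasurableSet.iInter fun hl => ?_
      have h1 : Measurable fun y : ListStructure (ℝ × (ι → Z)) =>
          (y l, tilL (ar := ar) c (decL y) l) :=
        (measurable_pi_apply l).prodMk ((measurable_pi_apply l).comp (hmt.comp hmd))
      exact h1 (isClosed_diagonal (X := ℝ × (ι → Z))).measurableSet
    have e2 : MeasurableSet {y : ListStructure (ℝ × (ι → Z)) |
        ∀ i < j, (decL (ar := ar) y).1 i i = 0} := by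
      rw [ofPred_forall]
      refine MeasurableSet.iInter fun i => ?_
      rw [ofPred_forall]
      exact MeasurableSet.iInter fun hl => measurableSet_eq_fun (hdm i i) measurable_const
    have e3 : MeasurableSet {y : ListStructure (ℝ × (ι → Z)) |
        ∀ i < j, ∀ k < j, (decL (ar := ar) y).1 i k = 0 → i = k} := by
      rw [ofPred_forall]
      refine MeasurableSet.iInter fun i => ?_
      rw [ofPred_forall]
      refine MeasurableSet.iInter fun _ => ?_
      rw [ofPred_forall]
      refine MeasurableSet.iInter fun k => ?_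
      rw [ofPred_forall]
      refine MeasurableSet.iInter fun _ => ?_
      by_cases hik : i = k
      · have h1 : {y : ListStructure (ℝ × (ι → Z)) | (decL (ar := ar) y).1 i k = 0 → i = k} =
            univ := by
          ext y
          simp [hik]
        rw [h1]
        exact MeasurableSet.univ
      · have h1 : {y : ListStructure (ℝ × (ι → Z)) | (decL (ar := ar) y).1 i k = 0 → i = k} =
            {y | (decL (ar := ar) y).1 i k = 0}ᶜ := by
          ext y
          simp [hik]
        rw [h1]
        exact (measurableSet_eq_fun (hdm i k) measurable_const).compl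
    have e4 : MeasurableSet {y : ListStructure (ℝ × (ι → Z)) |
        ∀ i < j, ∀ k < j, (decL (ar := ar) y).1 i k = (decL (ar := ar) y).1 k i} := by
      rw [ofPred_forall]
      refine MeasurableSet.iInter fun i => ?_
      rw [ofPred_forall]
      refine MeasurableSet.iInter fun _ => ?_
      rw [ofPred_forall]
      refine MeasurableSet.iInter fun k => ?_
      rw [ofPred_forall]
      exact MeasurableSet.iInter fun _ => measurableSet_eq_fun (hdm i k) (hdm k i)
    have e5 : MeasurableSet {y : ListStructure (ℝ × (ι → Z)) |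
        ∀ i < j, ∀ k < j, ∀ t < j, (decL (ar := ar) y).1 i t ≤
          (decL (ar := ar) y).1 i k + (decL (ar := ar) y).1 k t} := by
      rw [ofPred_forall]
      refine MeasurableSet.iInter fun i => ?_
      rw [ofPred_forall]
      refine MeasurableSet.iInter fun _ => ?_
      rw [ofPred_forall]
      refine MeasurableSet.iInter fun k => ?_
      rw [ofPred_forall]
      refine MeasurableSet.iInter fun _ => ?_
      rw [ofPred_forall]
      refine MeasurableSet.iInter fun t => ?_
      rw [ofPred_forall]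
      exact MeasurableSet.iInter fun _ => measurableSet_le (hdm i t) ((hdm i k).add (hdm k t))
    have e6 : MeasurableSet {y : ListStructure (ℝ × (ι → Z)) |
        ∀ s : Fin (m.unpair.2 + 1) → ℕ × ℕ, (∀ a, (s a).1 < j ∧ (s a).2 < j) → ∃ a b, a ≠ b ∧
        (decL (ar := ar) y).1 (s a).1 (s a).2 = (decL (ar := ar) y).1 (s b).1 (s b).2} := by
      rw [ofPred_forall]
      refine MeasurableSet.iInter fun s => ?_
      rw [ofPred_forall]
      refine MeasurableSet.iInter fun _ => ?_
      rw [ofPred_exists]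
      refine MeasurableSet.iUnion fun a => ?_
      rw [ofPred_exists]
      refine MeasurableSet.iUnion fun b => ?_
      exact (MeasurableSet.const (a ≠ b)).inter (measurableSet_eq_fun (hdm _ _) (hdm _ _))
    have e7 : MeasurableSet {y : ListStructure (ℝ × (ι → Z)) |
        decL (ar := ar) y ∈ cyl (Finset.range j) (C m.unpair.1)} := by
      have h1 : MeasurableSet (cyl (Finset.range j) (C m.unpair.1)) :=
        ((hCYL ι ar Z (C m.unpair.1)).1 (Finset.range j)).1.measurableSet
      exact hmd h1
    exact e1.inter ((e2.inter (e3.inter (e4.inter e5))).inter (e6.inter e7))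
  · refine ⟨insert 0 (Finset.range j), fun x y h => ⟨fun hx => ?_, fun hy => ?_⟩⟩
    · exact Cd_imp hCYL c _ _ _ h hx
    · exact Cd_imp hCYL c _ _ _ (fun l hl => (h l hl).symm) hy
  · rw [mem_iUnion]
    constructor
    · rintro ⟨m, hm⟩
      rw [mem_iInter] at hm
      have hFD : FD (decL (ar := ar) y) := by
        by_contra hinf
        have hinf' : {d : ℝ | ∃ i j, (decL (ar := ar) y).1 i j = d}.Infinite := hinf
        obtain ⟨t, ht, hcard⟩ := hinf'.exists_subset_card_eq (m.unpair.2 + 1)
        have hch : ∀ d : t, ∃ ij : ℕ × ℕ, (decL (ar := ar) y).1 ij.1 ij.2 = d := by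
          intro d
          obtain ⟨i, j, hij⟩ := ht d.2
          exact ⟨(i, j), hij⟩
        choose φ hφ using hch
        have e := (t.equivFinOfCardEq hcard).symm
        obtain ⟨j, hj⟩ : ∃ j : ℕ, ∀ a, (φ (e a)).1 < j ∧ (φ (e a)).2 < j := by
          refine ⟨(Finset.univ.sup fun a => max (φ (e a)).1 (φ (e a)).2) + 1, fun a => ?_⟩
          have h1 : max (φ (e a)).1 (φ (e a)).2 ≤
              Finset.univ.sup fun a => max (φ (e a)).1 (φ (e a)).2 :=
            Finset.le_sup (f := fun a => max (φ (e a)).1 (φ (e a)).2) (Finset.mem_univ a)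
          have h2 := (le_max_left _ _).trans h1
          have h3 := (le_max_right _ _).trans h1
          omega
        obtain ⟨-, -, h6, -⟩ := hm j
        obtain ⟨a, b, hab, h7⟩ := h6 (fun a => φ (e a)) hj
        rw [hφ, hφ] at h7
        exact hab (e.injective (Subtype.ext h7))
      refine ⟨decL y, hFD, ?_, ⟨m.unpair.1, ?_⟩, ?_⟩
      · rw [hMET ι ar Z _ hFD]
        refine ⟨fun i => ?_, fun i k => ?_, fun i k => ?_, fun i k t => ?_⟩
        · exact (hm (i + 1)).2.1.1 i (by omega)
        · exact (hm (i + k + 1)).2.1.2.1 i (by omega) k (by omega)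
        · exact (hm (i + k + 1)).2.1.2.2.1 i (by omega) k (by omega)
        · exact (hm (i + k + t + 1)).2.1.2.2.2 i (by omega) k (by omega) t (by omega)
      · refine (hCYL ι ar Z (C m.unpair.1)).2.2 (hC _) _ fun F => ?_
        refine cyl_anti (F' := Finset.range (F.sup id + 1)) ?_ _ (hm _).2.2.2
        intro i hi
        have : i ≤ F.sup id := Finset.le_sup (f := id) hi
        rw [Finset.mem_range]
        omega
      · funext l
        refine (hm (l.toFinset.sup id + 1)).1 l fun i hi => ?_
        have : i ≤ l.toFinset.sup id := Finset.le_sup (f := id) (List.mem_toFinset.2 hi)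
        omega
    · rintro ⟨x, hFD, hS, ⟨n, hn⟩, rfl⟩
      have hM := (hMET ι ar Z x hFD).1 hS
      obtain ⟨h1, h2, h3, h4⟩ := hM
      refine ⟨Nat.pair n (Set.ncard {d : ℝ | ∃ i j, x.1 i j = d}), ?_⟩
      rw [mem_iInter]
      intro j
      unfold Cd
      rw [mem_ofPred_eq, hdt, Nat.unpair_pair]
      refine ⟨fun l _ => rfl, ⟨fun i _ => h1 i, fun i _ k _ => h2 i k, fun i _ k _ => h3 i k,
        fun i _ k _ t _ => h4 i k t⟩, fun s _ => ?_, ?_⟩
      · have hcard : hFD.toFinset.card < (Finset.univ : Finset (Fin (Set.ncard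
            {d : ℝ | ∃ i j, x.1 i j = d} + 1))).card := by
          rw [Finset.card_univ, Fintype.card_fin, ← Set.ncard_eq_toFinset_card _ hFD]
          exact Nat.lt_succ_self _
        obtain ⟨a, _, b, _, hab, h5⟩ := Finset.exists_ne_map_eq_of_card_lt_of_maps_to hcard
          (f := fun a => x.1 (s a).1 (s a).2) (fun a _ => by
            rw [Finset.mem_coe, Set.Finite.mem_toFinset]
            exact ⟨(s a).1, (s a).2, rfl⟩)
        exact ⟨a, b, hab, h5⟩
      · exact ((hCYL ι ar Z (C n)).1 _).2 hn

end Pool.Agent.H68.PM
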